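import Pool.Agent.W683.BH.Fin

/-!
# MP_751bb7_an: no zero-dimensional model for `C(B(κ))`, `κ` large
-/

set_option autoImplicit false

namespace Pool.Agent.Results.MP_751bb7_an.LargeKappa

open Pool.Agent.W683.BH

theorem set_eq (κ : Type) : {x : κ → ℝ | (Summable fun i => |x i|) ∧ ∑' i, |x i| ≤ 1} =
    {x : κ → ℝ | ∀ A : Finset κ, ∑ i ∈ A, |x i| ≤ 1} := by
  ext x
  constructor
  · rintro ⟨h1, h2⟩ A
    exact (h1.sum_le_tsum A (fun i _ => abs_nonneg _)).trans h2
  · intro h
    have h1 : Summable fun i => |x i| := summable_of_sum_le (fun i => abs_nonneg _) h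
    exact ⟨h1, h1.tsum_le_of_sum_le h⟩

/-- Let `κ` be a set of cardinality at least `𝔠^{+m}` for all `m` (for instance of cardinality
at least `ℶ_ω`), and let `B(κ)` be the unit ball of `ℓ₁(κ)` with the topology of pointwise
convergence.  Then `C(B(κ))` is not isomorphic to `C(L)` for any zero-dimensional compact
Hausdorff space `L`. -/
theorem result (κ : Type) (hκ : ∀ m : ℕ, Order.succ^[m] Cardinal.continuum ≤ Cardinal.mk κ)
    (L : Type) [TopologicalSpace L] [CompactSpace L] [T2Space L]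
    (hL : TopologicalSpace.IsTopologicalBasis {s : Set L | IsClopen s}) :
    IsEmpty (C(↥{x : κ → ℝ | (Summable fun i => |x i|) ∧ ∑' i, |x i| ≤ 1}, ℝ) ≃L[ℝ]
      C(L, ℝ)) := by
  have := tot_disc L hL
  have := cpt κ
  obtain ⟨h⟩ := bk κ
  have h' := (Homeomorph.setCongr (set_eq κ)).trans h
  have : CompactSpace ↥{x : κ → ℝ | (Summable fun i => |x i|) ∧ ∑' i, |x i| ≤ 1} :=
    h'.symm.compactSpace
  exact no_iso' κ _ L ⟨h'⟩ hκ

end Pool.Agent.Results.MP_751bb7_an.LargeKappa
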